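import Pool.Agent.Helper72.NI.Ctx
import Pool.Agent.Helper28.PC.Hom

/-!
# Forms
-/

set_option autoImplicit false

namespace Pool.Agent.Helper33.NI

open Pool.Agent.Helper72.NI MvPolynomial

variable {E : Type} [Field E] [CharZero E] {N : ℕ}

omit [CharZero E] in
/-- Elements of the field generated by a point with a coordinate one are ratios of forms. -/
theorem exists_ratio {K : Subfield E} {y : Fin (N + 1) → E} {i₀ : Fin (N + 1)} (hy1 : y i₀ = 1)
    {z : E} (hz : z ∈ Subfield.closure ((K : Set E) ∪ Set.range y)) :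
    ∃ (a : ℕ) (P Q : MvPolynomial (Fin (N + 1)) K), P.IsHomogeneous a ∧ Q.IsHomogeneous a ∧
      aeval y Q ≠ 0 ∧ z * aeval y Q = aeval y P := by
  induction hz using Subfield.closure_induction with
  | mem z hz =>
    rcases hz with hz | ⟨j, rfl⟩
    · refine ⟨0, C ⟨z, hz⟩, 1, isHomogeneous_C _ _, isHomogeneous_one _ _, ?_, ?_⟩
      · rw [map_one]
        exact one_ne_zero
      · rw [map_one, mul_one, aeval_C]
        rfl
    · refine ⟨1, X j, X i₀, isHomogeneous_X _ _, isHomogeneous_X _ _, ?_, ?_⟩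
      · rw [aeval_X, hy1]
        exact one_ne_zero
      · rw [aeval_X, aeval_X, hy1, mul_one]
  | one =>
    refine ⟨0, 1, 1, isHomogeneous_one _ _, isHomogeneous_one _ _, ?_, ?_⟩
    · rw [map_one]
      exact one_ne_zero
    · rw [map_one, mul_one]
  | add z w _ _ hz hw =>
    obtain ⟨a, P, Q, hP, hQ, hQ0, h⟩ := hz
    obtain ⟨a', P', Q', hP', hQ', hQ0', h'⟩ := hw
    refine ⟨a + a', P * Q' + Q * P', Q * Q', (hP.mul hQ').add (hQ.mul hP'), hQ.mul hQ', ?_, ?_⟩
    · rw [map_mul]
      exact mul_ne_zero hQ0 hQ0'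
    · rw [map_add, map_mul, map_mul, map_mul, ← h, ← h']
      ring
  | neg z _ hz =>
    obtain ⟨a, P, Q, hP, hQ, hQ0, h⟩ := hz
    refine ⟨a, -P, Q, hP.neg, hQ, hQ0, ?_⟩
    rw [map_neg, ← h, neg_mul]
  | inv z _ hz =>
    by_cases hz0 : z = 0
    · refine ⟨0, 0, 1, isHomogeneous_zero _ _ _, isHomogeneous_one _ _, ?_, ?_⟩
      · rw [map_one]
        exact one_ne_zero
      · rw [map_one, mul_one, map_zero, hz0, inv_zero]
    · obtain ⟨a, P, Q, hP, hQ, hQ0, h⟩ := hz
      refine ⟨a, Q, P, hQ, hP, ?_, ?_⟩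
      · rw [← h]
        exact mul_ne_zero hz0 hQ0
      · rw [← h, ← mul_assoc, inv_mul_cancel₀ hz0, one_mul]
  | mul z w _ _ hz hw =>
    obtain ⟨a, P, Q, hP, hQ, hQ0, h⟩ := hz
    obtain ⟨a', P', Q', hP', hQ', hQ0', h'⟩ := hw
    refine ⟨a + a', P * P', Q * Q', hP.mul hP', hQ.mul hQ', ?_, ?_⟩
    · rw [map_mul]
      exact mul_ne_zero hQ0 hQ0'
    · rw [map_mul, map_mul, ← h, ← h']
      ring

omit [CharZero E] in
/-- LIN-a. -/
theorem lin_forms {K : Subfield E} {x y : Fin (N + 1) → E} {i₀ : Fin (N + 1)} (hx1 : x i₀ = 1)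
    (hy1 : y i₀ = 1) (hx : ∀ i, x i ∈ Subfield.closure ((K : Set E) ∪ Set.range y)) :
    ∃ (a : ℕ) (X : Fin (N + 1) → MvPolynomial (Fin (N + 1)) K) (b : E), b ≠ 0 ∧
      (∀ i, (X i).IsHomogeneous a) ∧ (∀ i, aeval y (X i) = b * x i) ∧
      ∀ g, (∀ i, g ∣ X i) → IsUnit g := by
  classical
  have hex : ∃ a : ℕ, ∃ (X : Fin (N + 1) → MvPolynomial (Fin (N + 1)) K) (b : E), b ≠ 0 ∧
      (∀ i, (X i).IsHomogeneous a) ∧ (∀ i, aeval y (X i) = b * x i) := by
    have h1 := fun i => exists_ratio hy1 (hx i)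
    choose a P Q hP hQ hQ0 h using h1
    refine ⟨∑ i, a i, fun i => P i * ∏ j ∈ Finset.univ.erase i, Q j, ∏ j, aeval y (Q j),
      Finset.prod_ne_zero_iff.2 fun j _ => hQ0 j, fun i => ?_, fun i => ?_⟩
    · rw [← Finset.add_sum_erase Finset.univ a (Finset.mem_univ i)]
      exact (hP i).mul (IsHomogeneous.prod _ _ _ fun j _ => hQ j)
    · rw [map_mul, ← h, map_prod, ← Finset.mul_prod_erase Finset.univ _ (Finset.mem_univ i)]
      ring
  obtain ⟨X, b, hb, hX, hXy⟩ := Nat.find_spec hex
  refine ⟨Nat.find hex, X, b, hb, hX, hXy, fun g hg => ?_⟩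
  have hX0 : aeval y (X i₀) ≠ 0 := by
    rw [hXy, hx1, mul_one]
    exact hb
  have hXi₀ : X i₀ ≠ 0 := by
    intro h0
    apply hX0
    rw [h0, map_zero]
  have hg0 : g ≠ 0 := by
    rintro rfl
    exact hXi₀ (zero_dvd_iff.1 (hg i₀))
  obtain ⟨m, hm⟩ := Pool.Agent.Helper28.PC.isHomogeneous_of_dvd (hX i₀) hXi₀ (hg i₀)
  by_cases hm0 : m = 0
  · subst hm0
    have h1 : g = C (coeff 0 g) :=
      (totalDegree_eq_zero_iff_eq_C).1 (Nat.le_zero.1 hm.totalDegree_le)
    have h2 : coeff 0 g ≠ 0 := by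
      intro h0
      rw [h0, C_0] at h1
      exact hg0 h1
    rw [h1]
    exact (isUnit_iff_ne_zero.2 h2).map C
  exfalso
  choose X' hX' using hg
  have hhom : ∀ i, (X' i).IsHomogeneous (Nat.find hex - m) := by
    intro i
    by_cases hi : X' i = 0
    · rw [hi]
      exact isHomogeneous_zero _ _ _
    · have hi' : X i ≠ 0 := by
        rw [hX' i]
        exact mul_ne_zero hg0 hi
      obtain ⟨m', hm'⟩ := Pool.Agent.Helper28.PC.isHomogeneous_of_dvd (hX i) hi'
        (Dvd.intro_left g (hX' i).symm)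
      have h1 := hm.mul hm'
      rw [← hX' i] at h1
      have h2 := (hX i).inj_right h1 hi'
      have h3 : Nat.find hex - m = m' := by omega
      rw [h3]
      exact hm'
  have hle : m ≤ Nat.find hex := by
    obtain ⟨m', hm'⟩ := Pool.Agent.Helper28.PC.isHomogeneous_of_dvd (hX i₀) hXi₀
      (Dvd.intro_left g (hX' i₀).symm)
    have h1 := hm.mul hm'
    rw [← hX' i₀] at h1
    have h2 := (hX i₀).inj_right h1 hXi₀
    omega
  have hgy : aeval y g ≠ 0 := by
    intro h0
    apply hX0
    rw [hX' i₀, map_mul, h0, zero_mul]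
  refine Nat.find_min hex (m := Nat.find hex - m) (by omega)
    ⟨X', b / aeval y g, div_ne_zero hb hgy, hhom, fun i => ?_⟩
  have h1 := hXy i
  rw [hX' i, map_mul] at h1
  field_simp
  rw [mul_comm]
  exact h1

omit [CharZero E] in
/-- Linear forms. -/
theorem aeval_linear {K : Subfield E} {G : MvPolynomial (Fin (N + 1)) K} (hG : G.IsHomogeneous 1)
    (y : Fin (N + 1) → E) :
    aeval y G = ∑ j, ((coeff (Finsupp.single j 1) G : K) : E) * y j := by
  classical
  have h1 : G = ∑ j, C (coeff (Finsupp.single j 1) G) * X j := by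
    ext m
    rw [coeff_sum]
    by_cases hm : ∃ j, m = Finsupp.single j 1
    · obtain ⟨j, rfl⟩ := hm
      rw [Finset.sum_eq_single j]
      · rw [coeff_C_mul, coeff_X, if_pos rfl, mul_one]
      · intro i _ hij
        rw [coeff_C_mul, coeff_X, if_neg, mul_zero]
        intro h
        exact hij (Finsupp.single_left_injective one_ne_zero h)
      · intro h
        exact absurd (Finset.mem_univ _) h
    · have h2 : m.degree ≠ 1 := by
        intro h
        exact hm ((Finsupp.sum_eq_one_iff m).1 h)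
      rw [hG.coeff_eq_zero h2]
      congr 1
      symm
      refine Finset.sum_eq_zero fun j _ => ?_
      rw [coeff_C_mul, coeff_X, if_neg, mul_zero]
      intro h
      exact hm ⟨j, h.symm⟩
  conv_lhs => rw [h1]
  rw [map_sum]
  refine Finset.sum_congr rfl fun j _ => ?_
  rw [map_mul, aeval_C, aeval_X]
  rfl

omit [CharZero E] in
/-- Degree one. -/
theorem lin_one {K : Subfield E} {x y : Fin (N + 1) → E} (hgx : Gen K x)
    {X : Fin (N + 1) → MvPolynomial (Fin (N + 1)) K} {b : E} (hb : b ≠ 0)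
    (hX : ∀ i, (X i).IsHomogeneous 1) (hXy : ∀ i, aeval y (X i) = b * x i) :
    ∃ (g : Matrix (Fin (N + 1)) (Fin (N + 1)) E) (b : E), (∀ i j, g i j ∈ K) ∧ g.det ≠ 0 ∧
      b ≠ 0 ∧ x = b • g.mulVec y := by
  classical
  set g' : Matrix (Fin (N + 1)) (Fin (N + 1)) K := fun i j => coeff (Finsupp.single j 1) (X i)
    with hg'
  set g : Matrix (Fin (N + 1)) (Fin (N + 1)) E := g'.map K.subtype with hg
  have hgy : ∀ i, g.mulVec y i = b * x i := by
    intro i
    rw [← hXy, aeval_linear (hX i)]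
    rfl
  refine ⟨g, b⁻¹, fun i j => (g' i j).2, ?_, inv_ne_zero hb, ?_⟩
  · intro hdet
    have h1 : g'.det = 0 := by
      have h2 : K.subtype g'.det = g.det := by
        rw [hg, RingHom.map_det]
        rfl
      rw [hdet] at h2
      exact (map_eq_zero K.subtype).1 h2
    obtain ⟨w, hw0, hw⟩ := Matrix.exists_vecMul_eq_zero_iff.2 h1
    obtain ⟨j, hj⟩ := Function.ne_iff.1 hw0
    set H : MvPolynomial (Fin (N + 1)) K := ∑ i, C (w i) * MvPolynomial.X i with hH
    have hHc : ∀ i, coeff (Finsupp.single i 1) H = w i := by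
      intro i
      rw [hH, coeff_sum, Finset.sum_eq_single i]
      · rw [coeff_C_mul, coeff_X, if_pos rfl, mul_one]
      · intro l _ hl
        rw [coeff_C_mul, coeff_X, if_neg, mul_zero]
        intro h
        exact hl (Finsupp.single_left_injective one_ne_zero h)
      · intro h
        exact absurd (Finset.mem_univ _) h
    have hHne : H ≠ 0 := by
      intro h0
      apply hj
      rw [Pi.zero_apply, ← hHc j, h0, coeff_zero]
    have hHhom : H.IsHomogeneous 1 := by
      refine IsHomogeneous.sum _ _ _ fun i _ => ?_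
      have h3 := (isHomogeneous_C (Fin (N + 1)) (w i)).mul (isHomogeneous_X K i)
      rwa [zero_add] at h3
    refine hgx 1 (H.map K.subtype) (hHhom.map _) (fun m => ?_) ?_ ?_
    · rw [coeff_map]
      exact (coeff m H).2
    · intro h2
      exact hHne ((map_eq_zero_iff _ (map_injective _ K.subtype.injective)).1 h2)
    · have h3 : eval x (H.map K.subtype) = aeval x H := by
        rw [eval_map]
        rfl
      rw [h3, aeval_linear hHhom]
      simp only [hHc]
      have h4 : b * ∑ i, ((w i : K) : E) * x i = 0 := by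
        have h5 : ∀ i, b * (((w i : K) : E) * x i) = ∑ l, ((w i * g' i l : K) : E) * y l := by
          intro i
          have h6 : b * (((w i : K) : E) * x i) = ((w i : K) : E) * (b * x i) := by ring
          rw [h6, ← hXy, aeval_linear (hX i), Finset.mul_sum]
          refine Finset.sum_congr rfl fun l _ => ?_
          push_cast
          ring
        rw [Finset.mul_sum]
        simp only [h5]
        rw [Finset.sum_comm]
        refine Finset.sum_eq_zero fun l _ => ?_
        rw [← Finset.sum_mul]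
        have h7 : ∑ i, ((w i * g' i l : K) : E) = 0 := by
          have h8 := congrFun hw l
          have h9 : (∑ i, w i * g' i l : K) = 0 := h8
          have h10 := congrArg (fun c : K => (c : E)) h9
          push_cast at h10 ⊢
          exact h10
        rw [h7, zero_mul]
      exact (mul_eq_zero.1 h4).resolve_left hb
  · funext i
    rw [Pi.smul_apply, hgy, smul_eq_mul, ← mul_assoc, inv_mul_cancel₀ hb, one_mul]

end Pool.Agent.Helper33.NI
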