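import Pool.Agent.Helper33.NI.LinMain
import Pool.Agent.Helper33.NI.LinForms
import Pool.Agent.Helper74.NI.LinB

/-!
# LIN: the field of definition of a linear relation
-/

set_option autoImplicit false

namespace Pool.Agent.Helper33.NI

open Pool.Agent.Helper72.NI MvPolynomial

variable {E : Type} [Field E] [CharZero E] {Γ : Type} [LinearOrderedCommGroupWithZero Γ]
  {v : Valuation E Γ} {k K Ω : Subfield E} {t : E} {N d : ℕ}
  {f φ : Fin (N + 1) → MvPolynomial (Fin (N + 1)) E}

/-- LIN. -/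
theorem linear_step (growth : GrowthStatement) (c : Ctx v k K Ω t d f φ)
    {x y : Fin (N + 1) → E} {i₀ : Fin (N + 1)}
    (hpt : Pt v Ω x y i₀) (hgx : Gen K x) (hgy : Gen K y)
    (hx : ∀ i, x i ∈ Subfield.closure ((K : Set E) ∪ Set.range y))
    (hlow : Low (acl ((k : Set E) ∪ Set.range y)) t f x) :
    ∃ (g : Matrix (Fin (N + 1)) (Fin (N + 1)) E) (b : E), (∀ i j, g i j ∈ K) ∧ g.det ≠ 0 ∧
      b ≠ 0 ∧ x = b • g.mulVec y := by
  obtain ⟨a, X, b, hb, hX, hXy, hcop⟩ := lin_forms hpt.x1 hpt.y1 hx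
  obtain ⟨s, e, C₀, hsK, hs0, hea, hC0, hChom, hCk, hcg⟩ :=
    Pool.Agent.Helper74.NI.lin_reduce c hpt hgy (F := fun i => (X i).map K.subtype) (a := a)
      (fun i => (hX i).map _) (fun i m => by
        rw [coeff_map]
        exact (coeff m (X i)).2) hb (fun i => by
        rw [eval_map_sub]
        exact hXy i)
  rcases Nat.eq_zero_or_pos e with he | he
  · subst he
    have ha : a = 1 := by omega
    subst ha
    exact lin_one hgx hb hX hXy
  · exact (lin_contra growth c hpt hgy hlow hb hX hXy hcop hsK hs0 he hC0 hChom hCk hcg).elim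

end Pool.Agent.Helper33.NI
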