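import Pool.Agent.Helper33.NI.LinTools
import Pool.Agent.Helper28.NI.CL

/-!
# Forms of degree at least two
-/

set_option autoImplicit false

namespace Pool.Agent.Helper33.NI

open Pool.Agent.Helper72.NI MvPolynomial

variable {E : Type} [Field E] [CharZero E] {Γ : Type} [LinearOrderedCommGroupWithZero Γ]
  {v : Valuation E Γ} {k K Ω : Subfield E} {t : E} {N d : ℕ}
  {f φ : Fin (N + 1) → MvPolynomial (Fin (N + 1)) E}

/-- Forms of degree at least two are impossible. -/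
theorem lin_contra (growth : GrowthStatement) (c : Ctx v k K Ω t d f φ)
    {x y : Fin (N + 1) → E} {i₀ : Fin (N + 1)} (hpt : Pt v Ω x y i₀) (hgy : Gen K y)
    (hlow : Low (acl ((k : Set E) ∪ Set.range y)) t f x) {a : ℕ}
    {X : Fin (N + 1) → MvPolynomial (Fin (N + 1)) K} {b : E} (hb : b ≠ 0)
    (hX : ∀ i, (X i).IsHomogeneous a) (hXy : ∀ i, aeval y (X i) = b * x i)
    (hcop : ∀ g, (∀ i, g ∣ X i) → IsUnit g) {s : E} {e : ℕ}
    {C₀ : MvPolynomial (Fin (N + 1)) E} (_hsK : s ∈ K) (hs0 : s ≠ 0) (he : 1 ≤ e)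
    (hC0 : C₀ ≠ 0) (hChom : C₀.IsHomogeneous e) (hCk : ∀ m, C₀.coeff m ∈ k)
    (hcg : ∀ i m, Cg v (s * ((X i).map K.subtype).coeff m)
      ((C₀ * MvPolynomial.X i).coeff m)) : False := by
  classical
  have := c.algE
  have := c.algΩ
  have := c.algK
  -- the point `q`
  obtain ⟨q, hqk, hq⟩ : ∃ q : Fin (N + 1) → E, (∀ i, q i ∈ k) ∧ eval q C₀ ≠ 0 := by
    by_contra hcon
    push Not at hcon
    apply hC0
    have hinf : (k : Set E).Infinite := by
      refine (Set.infinite_range_of_injective (Nat.cast_injective (R := E))).mono ?_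
      rintro _ ⟨m, rfl⟩
      exact natCast_mem k m
    refine MvPolynomial.funext_set (fun _ => (k : Set E)) (fun _ => hinf) fun u hu => ?_
    rw [map_zero]
    exact hcon u fun i => hu i (Set.mem_univ i)
  have hqK : ∀ i, q i ∈ K := fun i => c.kK (hqk i)
  -- the constants `z`, `τ`
  have hS₀Ω : ((k : Set E) ∪ Set.range y) ⊆ Ω := by
    rintro u (hu | ⟨i, rfl⟩)
    · exact c.kΩ hu
    · exact hpt.mem i
  have hS₀c : ((k : Set E) ∪ Set.range y).Countable :=
    c.countk.union (Set.countable_range y)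
  obtain ⟨z, hzΩ, hz⟩ := c.big _ hS₀Ω hS₀c
  set S : Set E := insert z ((k : Set E) ∪ Set.range y) with hS
  have hSΩ : S ⊆ Ω := Set.insert_subset hzΩ hS₀Ω
  have hSc : S.Countable := hS₀c.insert z
  obtain ⟨τ, hτΩ, hτ⟩ := c.big _ hSΩ hSc
  have hkS : (k : Set E) ⊆ S := fun u hu => Set.mem_insert_of_mem _ (Or.inl hu)
  have hκclosed : IsAlgClosed (acl S) := isAlgClosed_acl S
  have hkκ : k ≤ acl S := fun u hu => subset_acl _ (hkS hu)
  have hκΩ : acl S ≤ Ω := acl_le_self hSΩ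
  have hzκ : z ∈ acl S := subset_acl _ (Set.mem_insert _ _)
  have hyκ : ∀ i, y i ∈ acl S := fun i =>
    subset_acl _ (Set.mem_insert_of_mem _ (Or.inr ⟨i, rfl⟩))
  have hz0 : z ≠ 0 := by
    rintro rfl
    exact hz (zero_mem _)
  have hM : acl (S ∪ (K : Set E)) = acl (insert t S) := c.acl_K hkS
  have hτM : τ ∉ acl (S ∪ (K : Set E)) := by
    rw [hM]
    exact fun h => hτ (c.mem_of_t hSΩ hτΩ h)
  have hzK : z ∉ acl ((K : Set E) ∪ Set.range y) := by
    intro h
    have h1 : acl ((K : Set E) ∪ Set.range y) ≤ acl (((k : Set E) ∪ Set.range y) ∪ K) := by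
      apply acl_mono
      rintro u (hu | hu)
      · exact Or.inr hu
      · exact Or.inl (Or.inr hu)
    have h2 := h1 h
    rw [c.acl_K (Set.subset_union_left)] at h2
    exact hz (c.mem_of_t hS₀Ω hzΩ h2)
  -- the generic point
  set p : Fin (N + 1) → E := z • y with hp
  have hpj : ∀ j, p j = z * y j := fun j => rfl
  have hpκ : ∀ j, p j ∈ acl S := fun j => mul_mem hzκ (hyκ j)
  have hpi₀ : p i₀ = z := by rw [hpj, hpt.y1, mul_one]
  have hpind : AlgebraicIndependent K p := algInd_smul hgy hzK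
  have hqκ : ∀ j, q j ∈ acl S := fun j => hkκ (hqk j)
  have hκM : acl S ≤ acl (S ∪ (K : Set E)) := acl_mono Set.subset_union_left
  have hKM : K ≤ acl (S ∪ (K : Set E)) := fun u hu => subset_acl _ (Or.inr hu)
  -- the root `l₀`
  obtain ⟨l₀, hl₀⟩ := exists_root_ln (p := p) he hChom hq
  have hLne : ln p q C₀ ≠ 0 := by
    intro h
    have h1 : (ln q p C₀).eval 0 ≠ 0 := by
      rw [eval_ln]
      have h3 : (fun j => q j + 0 * p j) = q := by
        funext j
        rw [zero_mul, add_zero]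
      rw [h3]
      exact hq
    -- `C₀` does not vanish at `p`
    have h2 : eval p C₀ = 0 := by
      have h4 : (ln p q C₀).eval 0 = 0 := by rw [h, Polynomial.eval_zero]
      rw [eval_ln] at h4
      have h3 : (fun j => p j + 0 * q j) = p := by
        funext j
        rw [zero_mul, add_zero]
      rwa [h3] at h4
    rw [hp, eval_smul_hom hChom] at h2
    exact hgy e C₀ hChom (fun m => c.kK (hCk m)) hC0
      ((mul_eq_zero.1 h2).resolve_left (pow_ne_zero _ hz0))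
  have hl₀κ : l₀ ∈ acl S := mem_acl_of_poly hLne
    (ln_coeff_mem hpκ hqκ fun m => hkκ (hCk m)) hl₀
  -- the two polynomials
  set F : Fin (N + 1) → MvPolynomial (Fin (N + 1)) E := fun i => (X i).map K.subtype with hF
  set h : Polynomial E := ∑ i : Fin (N + 1), Polynomial.C (τ ^ (i : ℕ)) *
    ln p q (MvPolynomial.C s * F i) with hh
  set g : Polynomial E := ∑ i : Fin (N + 1), Polynomial.C (τ ^ (i : ℕ)) *
    ln p q (C₀ * MvPolynomial.X i) with hg
  have hintp : ∀ j, Cg v (p j) (p j) := fun j => Cg.refl (c.valΩ _ (hκΩ (hpκ j)))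
  have hintq : ∀ j, Cg v (q j) (q j) := fun j => Cg.refl (c.valΩ _ (hκΩ (hqκ j)))
  have hhg : CgP v h g := by
    refine CgP.sum _ fun i _ => ?_
    refine CgP.mul (CgP.C (Cg.refl (c.valΩ _ (pow_mem hτΩ _)))) ?_
    refine CgP.aeval (fun m => ?_) fun j => (CgP.C (hintp j)).add (CgP.X.mul (CgP.C (hintq j)))
    rw [coeff_C_mul]
    exact hcg i m
  have hgfac : g = ln p q C₀ * ∑ i : Fin (N + 1), Polynomial.C (τ ^ (i : ℕ)) *
      (Polynomial.C (p i) + Polynomial.X * Polynomial.C (q i)) := by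
    rw [hg, Finset.mul_sum]
    refine Finset.sum_congr rfl fun i _ => ?_
    rw [ln_mul, ln_X]
    ring
  have hgΩ : ∀ n, g.coeff n ∈ Ω := by
    intro n
    rw [hg, Polynomial.finsetSum_coeff]
    refine Subfield.sum_mem _ fun i _ => ?_
    rw [Polynomial.coeff_C_mul]
    refine mul_mem (pow_mem hτΩ _) (ln_coeff_mem (fun j => hκΩ (hpκ j)) (fun j => hκΩ (hqκ j))
      (fun m => ?_) n)
    rw [coeff_mul_X']
    split_ifs
    · exact c.kΩ (hCk _)
    · exact zero_mem _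
  have hg0 : g ≠ 0 := by
    rw [hgfac]
    refine mul_ne_zero hLne ?_
    intro h0
    have h1 := congrArg (fun P : Polynomial E => P.eval 0) h0
    simp only [Polynomial.eval_finsetSum, Polynomial.eval_mul, Polynomial.eval_C,
      Polynomial.eval_add, Polynomial.eval_X, zero_mul, add_zero, Polynomial.eval_zero] at h1
    have h2 := eq_zero_of_sum hτ (a := p) hpκ h1 i₀
    rw [hpi₀] at h2
    exact hz0 h2
  have hgl : g.eval l₀ = 0 := by rw [hgfac, Polynomial.eval_mul, hl₀, zero_mul]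
  obtain ⟨l₁, hl₁, hl₁₀⟩ := exists_root_near c.valΩ hgΩ hhg hg0 (hκΩ hl₀κ) hgl
  -- the point `P`
  set P : Fin (N + 1) → E := fun j => p j + l₁ * q j with hP
  have hsum : ∑ i : Fin (N + 1), τ ^ (i : ℕ) * eval P (F i) = 0 := by
    rw [hh, Polynomial.eval_finsetSum] at hl₁
    have h1 : s * ∑ i : Fin (N + 1), τ ^ (i : ℕ) * eval P (F i) = 0 := by
      rw [← hl₁, Finset.mul_sum]
      refine Finset.sum_congr rfl fun i _ => ?_
      rw [Polynomial.eval_mul, Polynomial.eval_C, eval_ln, map_mul, eval_C]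
      ring
    exact (mul_eq_zero.1 h1).resolve_left hs0
  have hFK : ∀ i m, (F i).coeff m ∈ K := by
    intro i m
    rw [hF]
    simp only [coeff_map]
    exact (coeff m (X i)).2
  have hFhom : ∀ i, (F i).IsHomogeneous a := fun i => (hX i).map _
  -- `l₁` is transcendental
  have hl₁M : l₁ ∉ acl (S ∪ (K : Set E)) := by
    intro h1
    have hPM : ∀ j, P j ∈ acl (S ∪ (K : Set E)) := fun j =>
      add_mem (hκM (hpκ j)) (mul_mem h1 (hκM (hqκ j)))
    have h2 : ∀ i, eval P (F i) = 0 := fun i => eq_zero_of_sum hτM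
      (a := fun i => eval P (F i))
      (fun i => Pool.Agent.Helper72.NI.eval_mem (fun m => hKM (hFK i m)) hPM) hsum i
    obtain ⟨i, hi⟩ := Pool.Agent.Helper28.NI.no_common_root X hcop p hpind
      (fun j => (⟨q j, hqK j⟩ : K)) l₁
    apply hi
    have h3 := h2 i
    rw [hF] at h3
    simp only [eval_map_sub] at h3
    exact h3
  have hPind : AlgebraicIndependent K P := algInd_line hpind (fun j => hκM (hpκ j))
    (fun j => hκM (hqκ j)) hl₁M
  set Z : Subfield E := acl ((K : Set E) ∪ Set.range p) with hZ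
  obtain ⟨ι, hιK, hιp⟩ : ∃ ι : Z →+* E,
      (∀ a (ha : a ∈ K), ι ⟨a, subset_acl _ (Or.inl ha)⟩ = a) ∧
      ∀ j, ι ⟨p j, subset_acl _ (Or.inr ⟨j, rfl⟩)⟩ = P j := exists_emb K hpind hPind
  have hKZ : K ≤ Z := fun u hu => subset_acl _ (Or.inl hu)
  have hpZ : ∀ j, p j ∈ Z := fun j => subset_acl _ (Or.inr ⟨j, rfl⟩)
  have hzZ : z ∈ Z := hpi₀ ▸ hpZ i₀
  have hyp : ∀ j, y j = z⁻¹ * p j := by
    intro j
    rw [hpj, ← mul_assoc, inv_mul_cancel₀ hz0, one_mul]
  have hyZ : ∀ j, y j ∈ Z := by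
    intro j
    rw [hyp]
    exact mul_mem (inv_mem hzZ) (hpZ j)
  have hbx : ∀ i, b * x i = eval y (F i) := by
    intro i
    rw [← hXy, hF]
    simp only [eval_map_sub]
  have hbZ : b ∈ Z := by
    have h1 := hbx i₀
    rw [hpt.x1, mul_one] at h1
    rw [h1]
    exact Pool.Agent.Helper72.NI.eval_mem (fun m => hKZ (hFK i₀ m)) hyZ
  have hxZ : ∀ i, x i ∈ Z := by
    intro i
    have h1 : x i = b⁻¹ * eval y (F i) := by
      rw [← hbx, ← mul_assoc, inv_mul_cancel₀ hb, one_mul]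
    rw [h1]
    exact mul_mem (inv_mem hbZ) (Pool.Agent.Helper72.NI.eval_mem (fun m => hKZ (hFK i m)) hyZ)
  -- the field of constants
  set T : Set E := insert l₁ S with hT
  have hST : acl S ≤ acl T := acl_mono (Set.subset_insert _ _)
  have hl₁T : l₁ ∈ acl T := subset_acl _ (Set.mem_insert _ _)
  have hPT : ∀ j, P j ∈ acl T := fun j => add_mem (hST (hpκ j)) (mul_mem hl₁T (hST (hqκ j)))
  have hkT : k ≤ acl T := hkκ.trans hST
  have hκ₁Z : acl ((k : Set E) ∪ Set.range y) ≤ Z := by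
    refine acl_le ?_
    rintro u (hu | ⟨j, rfl⟩)
    · exact hKZ (c.kK hu)
    · exact hyZ j
  have hιy : ∀ j, ι ⟨y j, hyZ j⟩ = (P i₀)⁻¹ * P j := by
    intro j
    have h1 : (⟨y j, hyZ j⟩ : Z) = (⟨p i₀, hpZ i₀⟩ : Z)⁻¹ * ⟨p j, hpZ j⟩ := by
      apply Subtype.ext
      push_cast
      rw [hpi₀]
      exact hyp j
    rw [h1, map_mul, map_inv₀, hιp, hιp]
  have hικ : ∀ u (hu : u ∈ acl ((k : Set E) ∪ Set.range y)), ι ⟨u, hκ₁Z hu⟩ ∈ acl T := by
    intro u hu
    have hSZ : ((k : Set E) ∪ Set.range y) ⊆ Z := (subset_acl _).trans hκ₁Z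
    refine acl_hom ι hSZ (fun w hw => ?_) (hκ₁Z hu) hu
    rcases hw with hw' | ⟨j, rfl⟩
    · have h1 : ι ⟨w, hSZ (Or.inl hw')⟩ = w := hιK w (c.kK hw')
      rw [h1]
      exact hkT hw'
    · have h1 : ι ⟨y j, hSZ (Or.inr ⟨j, rfl⟩)⟩ = (P i₀)⁻¹ * P j := hιy j
      rw [h1]
      exact mul_mem (inv_mem (hPT i₀)) (hPT j)
  have hlow₁ : Low (acl T) t f fun i => ι ⟨x i, hxZ i⟩ :=
    Low.hom ι hκ₁Z hικ (hKZ c.tK) (hιK t c.tK) (fun i m => hKZ (c.endf.coeff i m))
      (fun i m => hιK _ (c.endf.coeff i m)) hxZ hlow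
  -- the values of the forms
  set w : Z := ⟨z ^ a * b, mul_mem (pow_mem hzZ a) hbZ⟩ with hw
  have hw0 : w ≠ 0 := by
    intro h1
    have h2 := congrArg (fun c : Z => (c : E)) h1
    exact mul_ne_zero (pow_ne_zero _ hz0) hb h2
  have hιw0 : ι w ≠ 0 := by rwa [Ne, map_eq_zero]
  have hval : ∀ i, eval P (F i) = ι w * ι ⟨x i, hxZ i⟩ := by
    intro i
    have h1 : ι ⟨eval p (F i), Pool.Agent.Helper72.NI.eval_mem (fun m => hKZ (hFK i m)) hpZ⟩ =
        eval (fun j => ι ⟨p j, hpZ j⟩) (F i) :=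
      eval_hom ι (fun m => hKZ (hFK i m)) (fun m => hιK _ (hFK i m)) hpZ
    have h2 : (fun j => ι ⟨p j, hpZ j⟩) = P := _root_.funext fun j => hιp j
    rw [h2] at h1
    rw [← h1, ← map_mul]
    congr 1
    apply Subtype.ext
    push_cast
    rw [hp, eval_smul_hom (hFhom i), ← hbx]
    change z ^ a * (b * x i) = z ^ a * b * x i
    ring
  set x' : Fin (N + 1) → E := fun i => eval P (F i) with hx'
  have hx'eq : x' = ι w • fun i => ι ⟨x i, hxZ i⟩ := _root_.funext fun i => hval i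
  have hlow₂ : Low (acl T) t f x' := by
    rw [hx'eq]
    exact hlow₁.smul c.endf hιw0
  have hx'i₀ : x' i₀ ≠ 0 := by
    have h1 : x' i₀ = ι w * ι ⟨x i₀, hxZ i₀⟩ := hval i₀
    rw [h1]
    refine mul_ne_zero hιw0 ?_
    rw [Ne, map_eq_zero]
    intro h2
    have h3 := congrArg (fun c : Z => (c : E)) h2
    change x i₀ = 0 at h3
    rw [hpt.x1] at h3
    exact one_ne_zero h3
  obtain ⟨j, -, hjmax⟩ := Finset.exists_max_image Finset.univ (fun i => v (x' i))
    ⟨i₀, Finset.mem_univ _⟩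
  have hx'j : x' j ≠ 0 := by
    intro h1
    have h2 := hjmax i₀ (Finset.mem_univ _)
    rw [h1, map_zero] at h2
    exact hx'i₀ ((map_eq_zero v).1 (le_antisymm h2 zero_le))
  set x'' : Fin (N + 1) → E := (x' j)⁻¹ • x' with hx''
  have hlow₃ : Low (acl T) t f x'' := hlow₂.smul c.endf (inv_ne_zero hx'j)
  have hx''1 : ∀ i, v (x'' i) ≤ 1 := by
    intro i
    have h1 : x'' i = x' i / x' j := by
      rw [hx'', Pi.smul_apply, smul_eq_mul, div_eq_inv_mul]
    rw [h1, map_div₀]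
    exact div_le_one_of_le₀ (hjmax i (Finset.mem_univ _)) zero_le
  have hx''j : x'' j = 1 := by
    rw [hx'', Pi.smul_apply, smul_eq_mul, inv_mul_cancel₀ hx'j]
  have hζex : ∀ i, ∃ u ∈ Ω, v (x'' i - u) < 1 := fun i => c.resE _ (hx''1 i)
  choose ζ hζΩ hζ using hζex
  have hζj : ζ j ≠ 0 := by
    intro h1
    have h2 := hζ j
    rw [h1, hx''j, sub_zero, map_one] at h2
    exact lt_irrefl _ h2
  have hζ0 : ζ ≠ 0 := fun h1 => hζj (congrFun h1 j)
  -- residues
  have htT : t ∉ acl T := by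
    intro h1
    have h2 := exchange h1 (c.t_notMem hSΩ)
    rw [← hM] at h2
    exact hl₁M h2
  have hTeq : acl (insert l₁ (acl S : Set E)) = acl T := acl_insert_acl S l₁
  have hl₁₀ne : l₁ - l₀ ≠ 0 := by
    intro h1
    rw [sub_eq_zero] at h1
    exact hl₁M (hκM (h1 ▸ hl₀κ))
  have hres : ∀ u ∈ acl T, v u ≤ 1 → ∃ w ∈ acl S, v (u - w) < 1 := by
    intro u hu hu1
    refine exists_residue (F := acl S) (w := l₁) (m := l₁ - l₀)
      (fun b hb => c.valΩ b (hκΩ hb)) ?_ hl₁₀ne hl₁₀ ?_ hu1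
    · rw [hTeq]
      exact sub_mem hl₁T (hST hl₀κ)
    · rw [hTeq]
      exact hu
  have hTclosed : IsAlgClosed (acl T) := isAlgClosed_acl T
  obtain ⟨u, hu0, hu⟩ := reduce_const' growth c hkT hkκ hκΩ htT hres hx''1 hζΩ hζ hζ0 hlow₃
  -- the contradiction
  have hsum' : ∑ i : Fin (N + 1), τ ^ (i : ℕ) * x'' i = 0 := by
    have h1 : ∑ i : Fin (N + 1), τ ^ (i : ℕ) * x'' i =
        (x' j)⁻¹ * ∑ i : Fin (N + 1), τ ^ (i : ℕ) * eval P (F i) := by
      rw [Finset.mul_sum]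
      refine Finset.sum_congr rfl fun i _ => ?_
      rw [hx'', Pi.smul_apply, smul_eq_mul]
      ring
    rw [h1, hsum, mul_zero]
  have hcg' : Cg v (∑ i : Fin (N + 1), τ ^ (i : ℕ) * x'' i)
      (∑ i : Fin (N + 1), τ ^ (i : ℕ) * ζ i) :=
    Cg.sum _ fun i _ => (Cg.refl (c.valΩ _ (pow_mem hτΩ _))).mul
      ⟨hx''1 i, c.valΩ _ (hζΩ i), hζ i⟩
  rw [hsum'] at hcg'
  have hζsum : ∑ i : Fin (N + 1), τ ^ (i : ℕ) * ζ i = 0 :=
    (hcg'.eq c.valΩ (zero_mem _)
      (Subfield.sum_mem _ fun i _ => mul_mem (pow_mem hτΩ _) (hζΩ i))).symm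
  have h1 : ∑ i : Fin (N + 1), τ ^ (i : ℕ) * (u * ζ i) = 0 := by
    have h2 : ∑ i : Fin (N + 1), τ ^ (i : ℕ) * (u * ζ i) =
        u * ∑ i : Fin (N + 1), τ ^ (i : ℕ) * ζ i := by
      rw [Finset.mul_sum]
      exact Finset.sum_congr rfl fun i _ => by ring
    rw [h2, hζsum, mul_zero]
  have h2 := eq_zero_of_sum hτ (a := fun i => u * ζ i) hu h1 j
  exact mul_ne_zero hu0 hζj h2

end Pool.Agent.Helper33.NI
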