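import Pool.Agent.Helper72.NI.Cong

/-!
# Lifting of roots, and congruences of polynomials
-/

set_option autoImplicit false

namespace Pool.Agent.Helper33.NI

open Pool.Agent.Helper72.NI Polynomial

section

variable {E : Type} [Field E] {Γ : Type} [LinearOrderedCommGroupWithZero Γ] {v : Valuation E Γ}

/-- Congruence of polynomials. -/
def CgP (v : Valuation E Γ) (F G : Polynomial E) : Prop := ∀ n, Cg v (F.coeff n) (G.coeff n)

theorem CgP.add {F G F' G' : Polynomial E} (h : CgP v F G) (h' : CgP v F' G') :
    CgP v (F + F') (G + G') := fun n => by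
  rw [coeff_add, coeff_add]
  exact (h n).add (h' n)

theorem CgP.mul {F G F' G' : Polynomial E} (h : CgP v F G) (h' : CgP v F' G') :
    CgP v (F * F') (G * G') := fun n => by
  rw [coeff_mul, coeff_mul]
  exact Cg.sum _ fun p _ => (h p.1).mul (h' p.2)

theorem CgP.C {x y : E} (h : Cg v x y) : CgP v (C x) (C y) := fun n => by
  rw [coeff_C, coeff_C]
  split_ifs
  · exact h
  · exact Cg.refl (by rw [map_zero]; exact zero_le)

theorem CgP.X : CgP v (X : Polynomial E) X := fun n => by
  rw [coeff_X]
  split_ifs
  · exact Cg.refl (by rw [map_one])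
  · exact Cg.refl (by rw [map_zero]; exact zero_le)

theorem CgP.one : CgP v (1 : Polynomial E) 1 := by
  have h := CgP.C (v := v) (x := 1) (y := 1) (Cg.refl (by rw [map_one]))
  rw [Polynomial.C_1] at h
  exact h

theorem CgP.zero : CgP v (0 : Polynomial E) 0 := fun n => by
  rw [coeff_zero]
  exact Cg.refl (by rw [map_zero]; exact zero_le)

theorem CgP.pow {F G : Polynomial E} (h : CgP v F G) (n : ℕ) : CgP v (F ^ n) (G ^ n) := by
  induction n with
  | zero => rw [pow_zero, pow_zero]; exact CgP.one
  | succ n ih => rw [pow_succ, pow_succ]; exact ih.mul h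

theorem CgP.sum {ι : Type} (s : Finset ι) {F G : ι → Polynomial E}
    (h : ∀ i ∈ s, CgP v (F i) (G i)) : CgP v (∑ i ∈ s, F i) (∑ i ∈ s, G i) := by
  classical
  induction s using Finset.induction_on with
  | empty => simp only [Finset.sum_empty]; exact CgP.zero
  | insert a s ha ih =>
    rw [Finset.sum_insert ha, Finset.sum_insert ha]
    exact (h a (Finset.mem_insert_self _ _)).add (ih fun i hi => h i (Finset.mem_insert_of_mem hi))

theorem CgP.prod {ι : Type} (s : Finset ι) {F G : ι → Polynomial E}
    (h : ∀ i ∈ s, CgP v (F i) (G i)) : CgP v (∏ i ∈ s, F i) (∏ i ∈ s, G i) := by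
  classical
  induction s using Finset.induction_on with
  | empty => simp only [Finset.prod_empty]; exact CgP.one
  | insert a s ha ih =>
    rw [Finset.prod_insert ha, Finset.prod_insert ha]
    exact (h a (Finset.mem_insert_self _ _)).mul (ih fun i hi => h i (Finset.mem_insert_of_mem hi))

/-- The congruence of the values of polynomials in many variables at polynomials. -/
theorem CgP.aeval {σ : Type} {P Q : MvPolynomial σ E}
    (hPQ : ∀ m, Cg v (P.coeff m) (Q.coeff m)) {F G : σ → Polynomial E}
    (hFG : ∀ i, CgP v (F i) (G i)) :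
    CgP v (MvPolynomial.aeval F P) (MvPolynomial.aeval G Q) := by
  classical
  rw [MvPolynomial.aeval_def, MvPolynomial.aeval_def, MvPolynomial.eval₂_eq,
    MvPolynomial.eval₂_eq]
  have h1 : ∑ m ∈ P.support, (algebraMap E (Polynomial E)) (P.coeff m) *
      ∏ i ∈ m.support, F i ^ m i = ∑ m ∈ P.support ∪ Q.support,
      (algebraMap E (Polynomial E)) (P.coeff m) * ∏ i ∈ m.support, F i ^ m i := by
    refine Finset.sum_subset Finset.subset_union_left fun m _ hm => ?_
    rw [MvPolynomial.notMem_support_iff.1 hm, map_zero, zero_mul]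
  have h2 : ∑ m ∈ Q.support, (algebraMap E (Polynomial E)) (Q.coeff m) *
      ∏ i ∈ m.support, G i ^ m i = ∑ m ∈ P.support ∪ Q.support,
      (algebraMap E (Polynomial E)) (Q.coeff m) * ∏ i ∈ m.support, G i ^ m i := by
    refine Finset.sum_subset Finset.subset_union_right fun m _ hm => ?_
    rw [MvPolynomial.notMem_support_iff.1 hm, map_zero, zero_mul]
  rw [h1, h2]
  exact CgP.sum _ fun m _ => (CgP.C (hPQ m)).mul (CgP.prod _ fun i _ => (hFG i).pow _)

/-- A polynomial all of whose roots are far from zero. -/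
theorem coeff_le_of_roots (c : E) (s : Multiset E) (hs : ∀ r ∈ s, 1 ≤ v r) :
    ∀ n, v ((Polynomial.C c * (s.map fun r => Polynomial.X - Polynomial.C r).prod).coeff n) ≤
      v ((Polynomial.C c * (s.map fun r => Polynomial.X - Polynomial.C r).prod).coeff 0) := by
  induction s using Multiset.induction_on with
  | empty =>
    intro n
    rw [Multiset.map_zero, Multiset.prod_zero, mul_one, coeff_C, coeff_C_zero]
    split_ifs
    · exact le_rfl
    · rw [map_zero]
      exact zero_le
  | cons r s ih =>
    have hr : 1 ≤ v r := hs r (Multiset.mem_cons_self _ _)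
    have ih' := ih fun q hq => hs q (Multiset.mem_cons_of_mem hq)
    set G := Polynomial.C c * (s.map fun r => Polynomial.X - Polynomial.C r).prod with hG
    have h1 : Polynomial.C c * ((r ::ₘ s).map fun r => Polynomial.X - Polynomial.C r).prod =
        Polynomial.X * G - Polynomial.C r * G := by
      rw [Multiset.map_cons, Multiset.prod_cons, hG]
      ring
    have h0 : v ((Polynomial.X * G - Polynomial.C r * G).coeff 0) = v r * v (G.coeff 0) := by
      rw [coeff_sub, coeff_C_mul, mul_coeff_zero, coeff_X_zero, zero_mul, zero_sub,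
        Valuation.map_neg, map_mul]
    have hle : v (G.coeff 0) ≤ v r * v (G.coeff 0) := by
      calc v (G.coeff 0) = 1 * v (G.coeff 0) := (one_mul _).symm
        _ ≤ v r * v (G.coeff 0) := mul_le_mul_left hr _
    intro n
    rw [h1, h0, coeff_sub, coeff_C_mul]
    refine (v.map_sub _ _).trans (max_le ?_ ?_)
    · cases n with
      | zero =>
        rw [mul_coeff_zero, coeff_X_zero, zero_mul, map_zero]
        exact zero_le
      | succ n =>
        rw [coeff_X_mul]
        exact (ih' n).trans hle
    · rw [map_mul]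
      exact mul_le_mul_right (ih' n) _

/-- Lifting of roots. -/
theorem exists_root_near [IsAlgClosed E] {Ω : Subfield E} (hΩ : ∀ b ∈ Ω, v b ≤ 1)
    {h g : Polynomial E} (hg : ∀ n, g.coeff n ∈ Ω) (hhg : ∀ n, Cg v (h.coeff n) (g.coeff n))
    (hg0 : g ≠ 0) {l₀ : E} (hl₀ : l₀ ∈ Ω) (hgl : g.eval l₀ = 0) :
    ∃ l₁, h.eval l₁ = 0 ∧ v (l₁ - l₀) < 1 := by
  classical
  by_contra hcon
  push Not at hcon
  set T : Polynomial E := Polynomial.X + Polynomial.C l₀ with hT
  set H := h.comp T with hH
  set G := g.comp T with hG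
  have hcomp : ∀ F : Polynomial E, F.comp T = ∑ n ∈ F.support, Polynomial.C (F.coeff n) * T ^ n := by
    intro F
    rw [comp, eval₂_def]
    rfl
  have hTT : CgP v T T := CgP.X.add (CgP.C (Cg.refl (hΩ _ hl₀)))
  have hHG : CgP v H G := by
    rw [hH, hG, hcomp, hcomp]
    have h1 : ∑ n ∈ h.support, Polynomial.C (h.coeff n) * T ^ n =
        ∑ n ∈ h.support ∪ g.support, Polynomial.C (h.coeff n) * T ^ n := by
      refine Finset.sum_subset Finset.subset_union_left fun m _ hm => ?_
      rw [Polynomial.notMem_support_iff.1 hm, map_zero, zero_mul]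
    have h2 : ∑ n ∈ g.support, Polynomial.C (g.coeff n) * T ^ n =
        ∑ n ∈ h.support ∪ g.support, Polynomial.C (g.coeff n) * T ^ n := by
      refine Finset.sum_subset Finset.subset_union_right fun m _ hm => ?_
      rw [Polynomial.notMem_support_iff.1 hm, map_zero, zero_mul]
    rw [h1, h2]
    exact CgP.sum _ fun n _ => (CgP.C (hhg n)).mul (hTT.pow n)
  have hGne : G ≠ 0 := by
    intro h0
    apply hg0
    have h1 : G.comp (Polynomial.X - Polynomial.C l₀) = g := by
      rw [hG, comp_assoc, hT, add_comp, X_comp, C_comp, sub_add_cancel, comp_X]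
    rw [← h1, h0, zero_comp]
  have hG0 : G.coeff 0 = 0 := by
    rw [coeff_zero_eq_eval_zero, hG, eval_comp, hT, eval_add, eval_X, eval_C, zero_add, hgl]
  have hH0 : v (H.coeff 0) < 1 := by
    have := (hHG 0).lt
    rwa [hG0, sub_zero] at this
  -- the coefficients of `G` are in `Ω`
  have hGΩ : ∀ n, G.coeff n ∈ Ω := by
    have hTl : T ∈ Polynomial.lifts (algebraMap Ω E) := by
      refine add_mem (Polynomial.X_mem_lifts _) ?_
      exact Polynomial.C_mem_lifts (algebraMap Ω E) ⟨l₀, hl₀⟩
    have hGl : G ∈ Polynomial.lifts (algebraMap Ω E) := by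
      rw [hG, hcomp]
      refine sum_mem fun n _ => mul_mem ?_ (pow_mem hTl n)
      exact Polynomial.C_mem_lifts (algebraMap Ω E) ⟨_, hg n⟩
    intro n
    obtain ⟨b, hb⟩ := (Polynomial.lifts_iff_coeff_lifts G).1 hGl n
    rw [← hb]
    exact b.2
  obtain ⟨n, hn⟩ : ∃ n, G.coeff n ≠ 0 := by
    by_contra hc
    push Not at hc
    exact hGne (Polynomial.ext fun n => by rw [hc n, coeff_zero])
  have hHn : v (H.coeff n) = 1 := (hHG n).val (val_one_of_mem hΩ (hGΩ n) hn)
  -- the factorization
  have hfac := (IsAlgClosed.splits H).eq_prod_roots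
  have hroots : ∀ r ∈ H.roots, 1 ≤ v r := by
    intro r hr
    have h1 : H.eval r = 0 := (Polynomial.isRoot_of_mem_roots hr)
    rw [hH, eval_comp, hT, eval_add, eval_X, eval_C] at h1
    have h2 := hcon (r + l₀) h1
    rwa [add_sub_cancel_right] at h2
  have hle := coeff_le_of_roots (v := v) H.leadingCoeff H.roots hroots n
  rw [← hfac] at hle
  rw [hHn] at hle
  exact absurd hH0 (not_lt.2 hle)

end

end Pool.Agent.Helper33.NI
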