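import Pool.Agent.Helper72.NI.StepMain
import Pool.Agent.Helper33.NI.LinRoot

/-!
# Lines through generic points
-/

set_option autoImplicit false

namespace Pool.Agent.Helper33.NI

open Pool.Agent.Helper72.NI MvPolynomial

section

variable {E : Type} [Field E] {n : ℕ}

/-- The restriction of a polynomial to a line. -/
noncomputable def ln (p q : Fin n → E) (G : MvPolynomial (Fin n) E) : Polynomial E :=
  aeval (fun j => Polynomial.C (p j) + Polynomial.X * Polynomial.C (q j)) G

theorem eval_ln (p q : Fin n → E) (G : MvPolynomial (Fin n) E) (l : E) :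
    (ln p q G).eval l = eval (fun j => p j + l * q j) G := by
  have h1 : ((Polynomial.evalRingHom l).comp (aeval (fun j => Polynomial.C (p j) +
      Polynomial.X * Polynomial.C (q j)) : MvPolynomial (Fin n) E →ₐ[E] Polynomial E).toRingHom) =
      (MvPolynomial.eval fun j => p j + l * q j) := by
    apply MvPolynomial.ringHom_ext
    · intro r
      simp
    · intro i
      simp
      exact mul_comm _ _
  exact RingHom.congr_fun h1 G

theorem ln_coeff_mem {F : Subfield E} {p q : Fin n → E} (hp : ∀ j, p j ∈ F) (hq : ∀ j, q j ∈ F)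
    {G : MvPolynomial (Fin n) E} (hG : ∀ m, G.coeff m ∈ F) (i : ℕ) : (ln p q G).coeff i ∈ F := by
  have h1 : ln p q G ∈ Polynomial.lifts (algebraMap F E) := by
    unfold ln
    rw [aeval_def, eval₂_eq]
    refine sum_mem fun m _ => mul_mem ?_ (prod_mem fun j _ => pow_mem ?_ _)
    · exact Polynomial.C_mem_lifts (algebraMap F E) ⟨_, hG m⟩
    · refine add_mem (Polynomial.C_mem_lifts (algebraMap F E) ⟨_, hp j⟩) (mul_mem
        (Polynomial.X_mem_lifts _) (Polynomial.C_mem_lifts (algebraMap F E) ⟨_, hq j⟩))
  obtain ⟨b, hb⟩ := (Polynomial.lifts_iff_coeff_lifts _).1 h1 i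
  rw [← hb]
  exact b.2

theorem ln_mul (p q : Fin n → E) (G H : MvPolynomial (Fin n) E) :
    ln p q (G * H) = ln p q G * ln p q H := map_mul _ _ _

theorem ln_X (p q : Fin n → E) (j : Fin n) :
    ln p q (X j) = Polynomial.C (p j) + Polynomial.X * Polynomial.C (q j) := by
  unfold ln
  rw [aeval_X]

end

section

variable {E : Type} [Field E] [Infinite E] {N : ℕ}

/-- A form of positive degree is not constant on a line. -/
theorem exists_root_ln [IsAlgClosed E] {p q : Fin (N + 1) → E} {G : MvPolynomial (Fin (N + 1)) E}
    {e : ℕ} (he : 1 ≤ e) (hG : G.IsHomogeneous e) (hq : eval q G ≠ 0) :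
    ∃ l, (ln p q G).eval l = 0 := by
  classical
  apply IsAlgClosed.exists_root
  intro hdeg
  have hconst : ∀ l, eval (fun j => p j + l * q j) G = (ln p q G).coeff 0 := by
    intro l
    rw [← eval_ln, Polynomial.eq_C_of_degree_eq_zero hdeg, Polynomial.eval_C,
      Polynomial.coeff_C_zero]
  set c := (ln p q G).coeff 0
  set R : Polynomial E := ln q p G - Polynomial.C c * Polynomial.X ^ e with hR
  have hR0 : R = 0 := by
    apply Polynomial.eq_zero_of_infinite_isRoot
    refine Set.Infinite.mono (s := {0}ᶜ) ?_ (Set.finite_singleton (0 : E)).infinite_compl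
    intro m hm
    have hm0 : m ≠ 0 := hm
    change R.eval m = 0
    rw [hR, Polynomial.eval_sub, eval_ln, Polynomial.eval_mul, Polynomial.eval_C,
      Polynomial.eval_pow, Polynomial.eval_X, ← hconst m⁻¹]
    have h1 : (fun j => q j + m * p j) = m • (fun j => p j + m⁻¹ * q j) := by
      funext j
      rw [Pi.smul_apply, smul_eq_mul]
      field_simp
      ring
    rw [h1, eval_smul_hom hG]
    ring
  have h2 : R.eval 0 = 0 := by rw [hR0, Polynomial.eval_zero]
  rw [hR, Polynomial.eval_sub, eval_ln, Polynomial.eval_mul, Polynomial.eval_pow,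
    Polynomial.eval_X, zero_pow (by omega), mul_zero, sub_zero] at h2
  apply hq
  have h3 : (fun j => q j + 0 * p j) = q := by
    funext j
    rw [zero_mul, add_zero]
  rwa [h3] at h2

end

section

variable {E : Type} [Field E] [CharZero E] {N : ℕ}

omit [CharZero E] in
theorem eval_map_sub {F : Subfield E} {n : ℕ} (x : Fin n → E) (P : MvPolynomial (Fin n) F) :
    eval x (P.map F.subtype) = aeval x P := by
  rw [eval_map]
  rfl

/-- Multiples of a generic point are algebraically independent. -/
theorem algInd_smul {K : Subfield E} {y : Fin (N + 1) → E} (hgy : Gen K y) {z : E}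
    (hz : z ∉ acl ((K : Set E) ∪ Set.range y)) : AlgebraicIndependent K (z • y) := by
  classical
  rw [algebraicIndependent_iff]
  intro P hP
  set M := P.totalDegree + 1 with hM
  have hsum : P = ∑ n ∈ Finset.range M, homogeneousComponent n P := (sum_homogeneousComponent P).symm
  have hev : ∀ n, aeval (z • y) (homogeneousComponent n P) =
      z ^ n * aeval y (homogeneousComponent n P) := by
    intro n
    rw [← eval_map_sub, ← eval_map_sub]
    exact eval_smul_hom ((homogeneousComponent_isHomogeneous n P).map _) z y
  have hmem : ∀ n, aeval y (homogeneousComponent n P) ∈ acl ((K : Set E) ∪ Set.range y) := by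
    intro n
    rw [← eval_map_sub]
    refine Pool.Agent.Helper72.NI.eval_mem (fun m => ?_) fun i => subset_acl _ (Or.inr ⟨i, rfl⟩)
    rw [coeff_map]
    exact subset_acl _ (Or.inl (coeff m (homogeneousComponent n P)).2)
  have h0 : ∑ i : Fin M, z ^ (i : ℕ) * aeval y (homogeneousComponent (i : ℕ) P) = 0 := by
    rw [← hP]
    conv_rhs => rw [hsum]
    rw [map_sum, Finset.sum_range]
    exact Finset.sum_congr rfl fun i _ => (hev i).symm
  have hzero : ∀ n ∈ Finset.range M, homogeneousComponent n P = 0 := by
    intro n hn
    have h1 := eq_zero_of_sum hz (a := fun i : Fin M => aeval y (homogeneousComponent (i : ℕ) P))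
      (fun i => hmem i) h0 ⟨n, Finset.mem_range.1 hn⟩
    by_contra hne
    refine hgy n ((homogeneousComponent n P).map K.subtype)
      ((homogeneousComponent_isHomogeneous n P).map _) (fun m => ?_) ?_ ?_
    · rw [coeff_map]
      exact (coeff m (homogeneousComponent n P)).2
    · intro h2
      exact hne ((map_eq_zero_iff _ (map_injective _ K.subtype.injective)).1 h2)
    · rw [eval_map_sub]
      exact h1
  rw [hsum]
  exact Finset.sum_eq_zero hzero

/-- A transcendental point on a line through a generic point is generic. -/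
theorem algInd_line {K : Subfield E} {S : Set E} {p q : Fin (N + 1) → E}
    (hp : AlgebraicIndependent K p) (hpS : ∀ j, p j ∈ acl (S ∪ K)) (hqS : ∀ j, q j ∈ acl (S ∪ K))
    {l : E} (hl : l ∉ acl (S ∪ K)) : AlgebraicIndependent K fun j => p j + l * q j := by
  rw [algebraicIndependent_iff]
  intro H hH
  apply algebraicIndependent_iff.1 hp
  rw [← eval_map_sub, ← eval_ln] at hH
  have h1 := eq_zero_of_transcendental hl (fun m => ln_coeff_mem hpS hqS (fun m => by
    rw [coeff_map]
    exact subset_acl _ (Or.inr (coeff m H).2)) m) hH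
  have h2 : (ln p q (H.map K.subtype)).eval 0 = 0 := by rw [h1, Polynomial.eval_zero]
  rw [eval_ln, eval_map_sub] at h2
  have h3 : (fun j => p j + 0 * q j) = p := by
    funext j
    rw [zero_mul, add_zero]
  rwa [h3] at h2

end

end Pool.Agent.Helper33.NI
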