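import Pool.Agent.Helper29.MF.T15

/-!
# NI-QL: points of bounded height have coordinates in a fixed finite-dimensional space
-/

set_option autoImplicit false

namespace Pool.Agent.Helper33.NI

open MvPolynomial
open Pool.Agent.Helper16 (Place IsFunctionField)
open Pool.Agent.Helper38.TQ

variable {ν : ℕ}

section

variable {k K : Type} [Field k] [Field K] [Algebra k K]

/-- several steps down at one place -/
theorem cut_one (v : Place k K) (hv : Module.Finite k v.resField) (n : ℕ) (e : ℤ)
    (W : Submodule k K) [FiniteDimensional k W] (hW : W ≤ v.filt e) :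
    Module.finrank k W ≤ Module.finrank k (W ⊓ v.filt (e - n) : Submodule k K) + n * v.deg := by
  induction n with
  | zero =>
    have : W ⊓ v.filt (e - (0 : ℕ)) = W := inf_eq_left.2 (by simpa using hW)
    rw [this]
    omega
  | succ n ih =>
    haveI : FiniteDimensional k (W ⊓ v.filt (e - n) : Submodule k K) :=
      Submodule.finiteDimensional_inf_left _ _
    have e1 : (e - n : ℤ) = (e - (n + 1 : ℕ)) + 1 := by
      push_cast
      ring
    have h1 := v.finrank_le_cut hv (e - (n + 1 : ℕ)) (W ⊓ v.filt (e - n)) (by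
      rw [← e1]
      exact inf_le_right)
    have h2 : (W ⊓ v.filt (e - n)) ⊓ v.filt (e - (n + 1 : ℕ)) ≤ W ⊓ v.filt (e - (n + 1 : ℕ)) :=
      inf_le_inf_right _ inf_le_left
    have h3 : Module.finrank k ((W ⊓ v.filt (e - n)) ⊓ v.filt (e - (n + 1 : ℕ)) :
        Submodule k K) ≤ Module.finrank k (W ⊓ v.filt (e - (n + 1 : ℕ)) : Submodule k K) := by
      haveI : FiniteDimensional k (W ⊓ v.filt (e - (n + 1 : ℕ)) : Submodule k K) :=
        Submodule.finiteDimensional_inf_left _ _
      exact Submodule.finrank_mono h2
    have h4 : (n + 1) * v.deg = n * v.deg + v.deg := by ring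
    omega

/-- several steps down at finitely many places -/
theorem cut_many (hres : ∀ v : Place k K, Module.Finite k v.resField) (T : Finset (Place k K))
    (e : Place k K → ℤ) (n : Place k K → ℕ) (W : Submodule k K) [FiniteDimensional k W]
    (hW : ∀ v ∈ T, W ≤ v.filt (e v)) :
    Module.finrank k W ≤
      Module.finrank k (W ⊓ ⨅ v ∈ T, v.filt (e v - n v) : Submodule k K) +
        ∑ v ∈ T, n v * v.deg := by
  classical
  induction T using Finset.induction_on with
  | empty =>
    have h0 : W ⊓ ⨅ v ∈ (∅ : Finset (Place k K)), v.filt (e v - n v) = W := by simp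
    rw [h0]
    simp
  | insert a T ha ih =>
    have h1 := ih (fun v hv => hW v (Finset.mem_insert_of_mem hv))
    haveI : FiniteDimensional k (W ⊓ ⨅ v ∈ T, v.filt (e v - n v) : Submodule k K) :=
      Submodule.finiteDimensional_inf_left _ _
    have h2 := cut_one a (hres a) (n a) (e a) (W ⊓ ⨅ v ∈ T, v.filt (e v - n v))
      (inf_le_left.trans (hW a (Finset.mem_insert_self _ _)))
    rw [Finset.sum_insert ha]
    have h3 : (W ⊓ ⨅ v ∈ T, v.filt (e v - n v)) ⊓ a.filt (e a - n a) =
        W ⊓ ⨅ v ∈ insert a T, v.filt (e v - n v) := by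
      rw [Finset.iInf_insert, inf_assoc, inf_comm (⨅ v ∈ T, v.filt (e v - n v))]
    rw [h3] at h2
    omega

end

variable {k K : Type} [Field k] [IsAlgClosed k] [Field K] [Algebra k K]

theorem pair_ne (t : K) : (![1, t] : Fin 2 → K) ≠ 0 := by
  intro h
  have := congrFun h 0
  simp at this

theorem log_pair (b : Place k K) (t : K) : 0 ≤ WithZero.log (nrm b ![1, t]) := by
  have h1 : (1 : WithZero (Multiplicative ℤ)) ≤ nrm b ![1, t] := by
    have := val_le_nrm b ![1, t] 0
    simpa using this
  rw [← WithZero.log_one, WithZero.log_le_log one_ne_zero (lt_of_lt_of_le zero_lt_one h1).ne']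
  exact h1

/-- the space of functions with bounded poles -/
theorem bounded_space (hK : IsFunctionField k K) (κ : Place k K → ℕ)
    (hκ : (Function.support κ).Finite) :
    FiniteDimensional k (⨅ b : Place k K, b.filt (κ b) : Submodule k K) := by
  classical
  set L : Submodule k K := ⨅ b : Place k K, b.filt (κ b) with hL
  set T : Finset (Place k K) := hκ.toFinset with hT
  have hmem : ∀ f ∈ L, ∀ b : Place k K, b.val f ≤ WithZero.exp (κ b : ℤ) := by
    intro f hf b
    exact (Submodule.mem_iInf _).1 hf b
  have hone : ∀ f ∈ L, f ∈ (⨅ b ∈ T, b.filt 0 : Submodule k K) →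
      f ∈ Submodule.span k {(1 : K)} := by
    intro f hf hfT
    have h2 : ∀ b : Place k K, b.val f ≤ 1 := by
      intro b
      by_cases hb : b ∈ T
      · have h4 : b.val f ≤ WithZero.exp (0 : ℤ) :=
          (Submodule.mem_iInf _).1 ((Submodule.mem_iInf _).1 hfT b) hb
        rwa [WithZero.exp_zero] at h4
      · rw [hT, Set.Finite.mem_toFinset, Function.notMem_support] at hb
        have h4 := hmem f hf b
        rw [hb] at h4
        simpa using h4
    obtain ⟨c, hc⟩ := Pool.Agent.Helper30.TP.formHeight_place hK f h2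
    rw [Submodule.mem_span_singleton]
    exact ⟨c, by rw [Algebra.smul_def, mul_one, hc]⟩
  have hbound : ∀ s : Finset L, LinearIndependent k (fun i : s => (i : L)) →
      s.card ≤ 1 + ∑ b ∈ T, κ b * b.deg := by
    intro s hs
    have hs' : LinearIndependent k (fun i : s => ((i : L) : K)) :=
      hs.map' L.subtype (Submodule.ker_subtype L)
    set W : Submodule k K := Submodule.span k (Set.range fun i : s => ((i : L) : K)) with hW
    have hWfin : FiniteDimensional k W :=
      FiniteDimensional.span_of_finite k (Set.finite_range _)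
    have hrank : Module.finrank k W = s.card := by
      rw [hW, finrank_span_eq_card hs']
      simp
    have hWL : W ≤ L := by
      rw [hW, Submodule.span_le]
      rintro _ ⟨i, rfl⟩
      exact (i : L).2
    have h1 := Pool.Agent.Helper16.finrank_le_cut_finset
      (fun b : Place k K => b.finite_resField hK) T κ W
      (fun b _ => hWL.trans (iInf_le _ b))
    have h2 : Module.finrank k (W ⊓ ⨅ b ∈ T, b.filt 0 : Submodule k K) ≤ 1 := by
      have h3 : (W ⊓ ⨅ b ∈ T, b.filt 0 : Submodule k K) ≤ Submodule.span k {(1 : K)} :=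
        fun f hf => hone f (hWL hf.1) hf.2
      calc Module.finrank k (W ⊓ ⨅ b ∈ T, b.filt 0 : Submodule k K)
          ≤ Module.finrank k (Submodule.span k {(1 : K)}) := Submodule.finrank_mono h3
        _ ≤ 1 := by
          have := finrank_span_le_card (R := k) ({(1 : K)} : Set K)
          simpa using this
    omega
  have hr := rank_le hbound
  exact Module.rank_lt_aleph0_iff.1 (hr.trans_lt (Cardinal.natCast_lt_aleph0))

/-- QL: points of bounded height have coordinates in a fixed finite-dimensional space. -/
theorem exists_space {k K : Type} [Field k] [IsAlgClosed k] [Field K] [Algebra k K]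
    (hK : IsFunctionField k K) (B : ℤ) :
    ∃ L : Submodule k K, FiniteDimensional k L ∧ ∀ x : Fin (ν + 1) → K, x ≠ 0 → ht k x ≤ B →
      ∃ c : K, c ≠ 0 ∧ ∀ i, c * x i ∈ L := by
  classical
  obtain ⟨t, ht⟩ : ∃ t : K, Transcendental k t := by
    have h1 : Algebra.trdeg k K ≠ 0 := by rw [hK.2]; exact one_ne_zero
    rw [trdeg_ne_zero_iff] at h1
    exact h1.transcendental
  set m : ℕ := B.toNat with hm
  set κ : Place k K → ℕ := fun b => m * (WithZero.log (nrm b ![1, t])).toNat with hκ
  have hst := nrm_support hK ![1, t] (pair_ne t)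
  have hκf : (Function.support κ).Finite := by
    refine hst.subset fun b hb => ?_
    rw [Function.mem_support] at hb ⊢
    intro h
    apply hb
    rw [hκ]
    simp only
    rw [h]
    simp
  refine ⟨⨅ b : Place k K, b.filt (κ b), bounded_space hK κ hκf, ?_⟩
  intro x hx hxB
  obtain ⟨i0, hi0⟩ : ∃ i, x i ≠ 0 := by
    by_contra h
    push Not at h
    exact hx (funext h)
  set y : Fin (ν + 1) → K := (x i0)⁻¹ • x with hy
  have hy0 : y ≠ 0 := by
    intro h
    have := congrFun h i0
    rw [hy, Pi.smul_apply, smul_eq_mul, inv_mul_cancel₀ hi0] at this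
    simp at this
  have hyi : y i0 = 1 := by rw [hy, Pi.smul_apply, smul_eq_mul, inv_mul_cancel₀ hi0]
  have hty : Pool.Agent.Helper38.TQ.ht k y ≤ B := by
    rw [hy, ht_smul hK (inv_ne_zero hi0) hx]
    exact hxB
  have hlog : ∀ b : Place k K, 0 ≤ WithZero.log (nrm b y) := by
    intro b
    have h1 : (1 : WithZero (Multiplicative ℤ)) ≤ nrm b y := by
      have := val_le_nrm b y i0
      rwa [hyi, map_one] at this
    rw [← WithZero.log_one, WithZero.log_le_log one_ne_zero (lt_of_lt_of_le zero_lt_one h1).ne']
    exact h1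
  -- the space of polynomials
  set v : Fin (m + 1) → K := fun j => t ^ (j : ℕ) with hv
  have hind : LinearIndependent k v := by
    have h1 : Function.Injective (Polynomial.aeval t : Polynomial k →ₐ[k] K) :=
      transcendental_iff_injective.1 ht
    have h2 : LinearIndependent k (fun j : ℕ => (Polynomial.X : Polynomial k) ^ j) := by
      have := (Polynomial.basisMonomials k).linearIndependent
      have e : (⇑(Polynomial.basisMonomials k)) = fun j : ℕ => (Polynomial.X : Polynomial k) ^ j := by
        funext j
        rw [Polynomial.coe_basisMonomials, Polynomial.X_pow_eq_monomial]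
      rwa [e] at this
    have h3 := (h2.map' (Polynomial.aeval t : Polynomial k →ₐ[k] K).toLinearMap
      (LinearMap.ker_eq_bot.2 h1)).comp (fun j : Fin (m + 1) => (j : ℕ)) Fin.val_injective
    have e : ((⇑(Polynomial.aeval t : Polynomial k →ₐ[k] K).toLinearMap ∘
        fun j : ℕ => (Polynomial.X : Polynomial k) ^ j) ∘ fun j : Fin (m + 1) => (j : ℕ)) = v := by
      funext j
      simp [hv]
    rwa [e] at h3
  set W : Submodule k K := Submodule.span k (Set.range v) with hW
  have hWfin : FiniteDimensional k W := FiniteDimensional.span_of_finite k (Set.finite_range v)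
  have hrank : Module.finrank k W = m + 1 := by
    rw [hW, finrank_span_eq_card hind]
    simp
  have hWb : ∀ b : Place k K, W ≤ b.filt (κ b : ℤ) := by
    intro b
    rw [hW, Submodule.span_le]
    rintro _ ⟨j, rfl⟩
    change b.val (t ^ (j : ℕ)) ≤ WithZero.exp (κ b : ℤ)
    rw [map_pow]
    have h1 : b.val t ≤ WithZero.exp (WithZero.log (nrm b ![1, t])) := by
      rw [WithZero.exp_log (nrm_ne_zero (pair_ne t))]
      have := val_le_nrm b ![1, t] 1
      simpa using this
    have h2 := pow_le_pow_left' h1 (j : ℕ)
    rw [← WithZero.exp_nsmul, nsmul_eq_mul] at h2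
    refine h2.trans ?_
    rw [WithZero.exp_le_exp, hκ]
    push_cast
    rw [Int.toNat_of_nonneg (log_pair b t)]
    have h3 : ((j : ℕ) : ℤ) ≤ m := by
      have := j.2
      omega
    exact mul_le_mul_of_nonneg_right h3 (log_pair b t)
  set n : Place k K → ℕ := fun b => (WithZero.log (nrm b y)).toNat with hn
  have hsy := nrm_support hK y hy0
  set T : Finset (Place k K) := hsy.toFinset with hT
  have hcut := cut_many (fun b : Place k K => b.finite_resField hK) T (fun b => (κ b : ℤ)) n W
    (fun b _ => hWb b)
  have hsum : (((∑ b ∈ T, n b * b.deg : ℕ)) : ℤ) ≤ m := by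
    have h1 : (((∑ b ∈ T, n b * b.deg : ℕ)) : ℤ) = ∑ b ∈ T, WithZero.log (nrm b y) := by
      push_cast
      refine Finset.sum_congr rfl fun b _ => ?_
      rw [deg_eq_one hK b, hn]
      simp only
      rw [Int.toNat_of_nonneg (hlog b)]
      push_cast
      ring
    have h2 : Pool.Agent.Helper38.TQ.ht k y = ∑ b ∈ T, WithZero.log (nrm b y) :=
      finsum_eq_sum_of_support_subset _ fun b hb => by
        rw [hT]
        simpa using hb
    rw [h1, ← h2]
    exact hty.trans (Int.self_le_toNat B)
  have hpos : 0 < Module.finrank k (W ⊓ ⨅ b ∈ T, b.filt ((κ b : ℤ) - n b) : Submodule k K) := by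
    rw [hrank] at hcut
    have h1 : ∑ b ∈ T, n b * b.deg ≤ m := by exact_mod_cast hsum
    omega
  obtain ⟨q, hq⟩ := Module.finrank_pos_iff_exists_ne_zero.1 hpos
  have hq0 : (q : K) ≠ 0 := fun h => hq (Subtype.ext h)
  obtain ⟨hqW, hqT⟩ := q.2
  refine ⟨(q : K) / x i0, div_ne_zero hq0 hi0, fun i => ?_⟩
  rw [Submodule.mem_iInf]
  intro b
  change b.val ((q : K) / x i0 * x i) ≤ WithZero.exp (κ b : ℤ)
  have e1 : (q : K) / x i0 * x i = (q : K) * y i := by
    rw [hy, Pi.smul_apply, smul_eq_mul]
    ring
  rw [e1, map_mul]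
  have h1 : b.val (q : K) ≤ WithZero.exp ((κ b : ℤ) - n b) := by
    by_cases hb : b ∈ T
    · exact (Submodule.mem_iInf _).1 ((Submodule.mem_iInf _).1 hqT b) hb
    · rw [hT, Set.Finite.mem_toFinset, Function.notMem_support] at hb
      have h2 : n b = 0 := by
        rw [hn]
        simp only
        rw [hb]
        rfl
      rw [h2]
      have h3 : b.val (q : K) ≤ WithZero.exp (κ b : ℤ) := hWb b hqW
      simpa using h3
  have h2 : b.val (y i) ≤ WithZero.exp (n b : ℤ) := by
    rw [hn]
    simp only
    rw [Int.toNat_of_nonneg (hlog b), WithZero.exp_log (nrm_ne_zero hy0)]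
    exact val_le_nrm b y i
  calc b.val (q : K) * b.val (y i) ≤ WithZero.exp ((κ b : ℤ) - n b) * WithZero.exp (n b : ℤ) :=
        mul_le_mul' h1 h2
    _ = WithZero.exp (κ b : ℤ) := by
        rw [← WithZero.exp_add]
        congr 1
        ring

end Pool.Agent.Helper33.NI
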